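import Pool.Agent.H223.EM.MDefs

set_option autoImplicit false

/-!
Twelfth moment lower bound: definitions (continuation of the eighth moment project).
`∫ ζ² P² (X C1 + X² C2)` with `P ≈ ζ²` of length `T^{1/4-ε}` and Hölder with exponents `6, 3, 2`.
-/

namespace Pool.Agent.H223.TM

open Finset Filter Topology MeasureTheory Complex
open Pool.Agent.H306R2 Pool.Agent.H306R2.SM Pool.Agent.H223.EM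

noncomputable section

/-- local factor of `ps6`: `(1-x)^5 Σ_j C(a+j+4,4) x^j = (1-x)^4 Σ_v C(v+3,3) x^{v-min(a,v)}`, `x = 1/p` -/
def psl6 (p a : ℕ) : ℝ :=
  ∑ i ∈ range 5, ((a + 4).choose i : ℝ) * (1 - 1 / (p : ℝ)) ^ i * (1 / (p : ℝ)) ^ (4 - i)

/-- coefficients of `C1` in `h`; `ps6 p = 5 + O(1/p)` -/
def ps6 (h : ℕ) : ℝ := h.factorization.prod psl6

/-- local factor of `Eh`: `(Σ_j C(a+j+3,3)(j+1) x^j) / (Σ_j C(j+3,3)(j+1) x^j)`, `x = 1/p` -/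
def Ehl (p a : ℕ) : ℝ :=
  (4 + 3 * ((a : ℝ) - 1) * (1 - 1 / (p : ℝ)) + (a : ℝ) * (a - 1) * (1 - 1 / (p : ℝ)) ^ 2 +
    ((a : ℝ) + 1) * a * (a - 1) / 6 * (1 - 1 / (p : ℝ)) ^ 3) / (1 + 3 * (1 / (p : ℝ)))

/-- coefficients of `C2` in `h`; `Eh p = 4 + O(1/p)` -/
def Eh (h : ℕ) : ℝ := h.factorization.prod Ehl

/-- local factor of `Fl`: `(Σ_j C(j+3,3)(b+j+1) x^j) / (Σ_j C(j+3,3)(j+1) x^j)`, `x = 1/p` -/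
def Fll (p b : ℕ) : ℝ := 1 + (b : ℝ) * (1 - 1 / (p : ℝ)) / (1 + 3 * (1 / (p : ℝ)))

/-- coefficients of `C2` in `l`; `Fl p = 2 + O(1/p)` -/
def Fl (l : ℕ) : ℝ := l.factorization.prod Fll

/-- `∏ (1-x)^8 Σ_j C(j+3,3)(j+1) x^j = ∏ (1-x)^3 (1+3x)`, `x = 1/p` -/
def kp6 : ℝ := ∏' p : Nat.Primes, ((1 - 1 / (p : ℝ)) ^ 3 * (1 + 3 * (1 / (p : ℝ))))

/-- weight of the norm of `C1`, variables `(h, l)` -/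
def wA (b : Fin 2 → ℕ) : ℝ :=
  if Nat.Coprime (b 0) (b 1) ∧ b 0 ≠ 0 ∧ b 1 ≠ 0 then ps6 (b 0) ^ 2 / ((b 0 : ℝ) * (b 1 : ℝ)) else 0

/-- weight of the cross term of `C1`; variables `(h', g1, g2, l, n1', n2')` with
`h = h' g1 g2`, `n1 = g1 n1'`, `n2 = g2 n2'`, `g1 = (h, n1)`, `g2 = (h/g1, n2)`; `(h, n1 n2) = g1 g2` -/
def wC (b : Fin 6 → ℕ) : ℝ :=
  if Nat.Coprime (b 0 * b 2) (b 4) ∧ Nat.Coprime (b 0) (b 5) ∧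
      Nat.Coprime (b 0 * b 1 * b 2) (b 3) ∧ ∀ i, b i ≠ 0 then
    ps6 (b 0 * b 1 * b 2) * d2 (b 1 * b 4) * d2 (b 2 * b 5) / ∏ i, (b i : ℝ) else 0

/-- weight of the norm of `C2`, variables `(h, l)` -/
def vA (b : Fin 2 → ℕ) : ℝ :=
  if Nat.Coprime (b 0) (b 1) ∧ b 0 ≠ 0 ∧ b 1 ≠ 0 then
    Eh (b 0) ^ 2 * Fl (b 1) ^ 2 / ((b 0 : ℝ) * (b 1 : ℝ)) else 0

/-- weight of the cross term of `C2`; variables `(h1, h2, l, m1, m2)` with `h = h1 h2`,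
`n1 = h1 m1`, `n2 = h2 m2`, `h1 = (h, n1)`; `n1 n2 = h m`, `m = m1 m2` -/
def vC (b : Fin 5 → ℕ) : ℝ :=
  if Nat.Coprime (b 1) (b 3) ∧ Nat.Coprime (b 0 * b 1) (b 2) ∧ ∀ i, b i ≠ 0 then
    Eh (b 0 * b 1) * Fl (b 2) * d2 (b 0 * b 3) * d2 (b 1 * b 4) * d2 (b 2 * b 3 * b 4) /
      ∏ i, (b i : ℝ) else 0

/-- weight of the sixth moment of `P`; variables `x_{ij} = b (3 i + j)`, `n_i = ∏_j x_{ij}`,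
`m_j = ∏_i x_{ij}` -/
def wP (b : Fin 9 → ℕ) : ℝ :=
  if Nat.Coprime (b 1 * b 2) (b 3 * b 6) ∧ Nat.Coprime (b 2) (b 4 * b 7) ∧
      Nat.Coprime (b 4 * b 5) (b 6) ∧ Nat.Coprime (b 5) (b 7) ∧ ∀ i, b i ≠ 0 then
    d2 (b 0 * b 1 * b 2) * d2 (b 3 * b 4 * b 5) * d2 (b 6 * b 7 * b 8) *
      (d2 (b 0 * b 3 * b 6) * d2 (b 1 * b 4 * b 7) * d2 (b 2 * b 5 * b 8)) / ∏ i, (b i : ℝ) else 0

/-- cutoff at `1/4` -/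
def eq4 (ε x : ℝ) : ℝ := sc (1 / 4 - 2 * ε) ε x

/-- coefficient function of `C1` -/
def FA (ε : ℝ) (x y : ℝ) : ℝ :=
  (1 + 10 * (1 / 2 - x) + 500 * (1 / 2 - x) ^ 2) * (3 - 4 * y) * et ε x * et ε y

/-- coefficient function of `C2` -/
def FB (ε : ℝ) (x y : ℝ) : ℝ := 37 * (1 / 2 - x) ^ 9 * et ε x * et ε y

/-- length of `P` -/
def N4 (ε T : ℝ) : ℕ := ⌊T ^ (1 / 4 - ε)⌋₊

/-- coefficients of `P` -/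
def ap (ε T : ℝ) (n : ℕ) : ℝ := d2 n * eq4 ε (Real.log n / Real.log T)

/-- the Dirichlet polynomial `P` -/
def Pp (ε T t : ℝ) : ℂ :=
  ∑ n ∈ Icc 1 (N4 ε T), ((ap ε T n / Real.sqrt n : ℝ) : ℂ) * ef (-(Real.log n)) t

/-- coefficients of `C1` -/
def cA (ε T : ℝ) (b : ℕ × ℕ) : ℝ :=
  Real.log T ^ 5 * ps6 b.1 * FA ε (Real.log b.1 / Real.log T) (Real.log b.2 / Real.log T) /
    Real.sqrt ((b.1 : ℝ) * b.2)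

/-- coefficients of `C2` -/
def cB (ε T : ℝ) (b : ℕ × ℕ) : ℝ :=
  Real.log T ^ 8 * kp6 * Eh b.1 * Fl b.2 *
    FB ε (Real.log b.1 / Real.log T) (Real.log b.2 / Real.log T) / Real.sqrt ((b.1 : ℝ) * b.2)

/-- `conj B = X C1 + X^2 C2` -/
def Bd (ε T t : ℝ) : ℂ :=
  Xf (cl t) * Cp (SS' ε T) (cA ε T) t + Xf (cl t) ^ 2 * Cp (SS' ε T) (cB ε T) t

/-- the weighted twelfth moment -/
def M12 (k : ℕ) (T : ℝ) : ℝ := ∫ t in Set.Ioi (0 : ℝ), om k (k / T) t * ‖riemannZeta (cl t)‖ ^ 12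

/-- continuous integrals -/
def JAn (ε : ℝ) : ℝ := ∫ u : Fin 2 → ℝ, Gd ![25, 1] u * FA ε (u 0) (u 1) ^ 2
def JAc (ε : ℝ) : ℝ := ∫ u : Fin 6 → ℝ, Gd ![5, 10, 10, 1, 2, 2] u *
  (FA ε (u 0 + u 1 + u 2) (u 3) * eq4 ε (u 1 + u 4) * eq4 ε (u 2 + u 5) *
    (1 - u 0 - u 3 - u 4 - u 5))
def JBn (ε : ℝ) : ℝ := ∫ u : Fin 2 → ℝ, Gd ![16, 4] u * FB ε (u 0) (u 1) ^ 2
def JBc (ε : ℝ) : ℝ := ∫ u : Fin 5 → ℝ, Gd ![8, 8, 4, 4, 4] u *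
  (FB ε (u 0 + u 1) (u 2) * eq4 ε (u 0 + u 3) * eq4 ε (u 1 + u 4))
def JP (ε : ℝ) : ℝ := ∫ u : Fin 9 → ℝ, Gd ![4, 4, 4, 4, 4, 4, 4, 4, 4] u *
  (eq4 ε (u 0 + u 1 + u 2) * eq4 ε (u 3 + u 4 + u 5) * eq4 ε (u 6 + u 7 + u 8) *
    (eq4 ε (u 0 + u 3 + u 6) * eq4 ε (u 1 + u 4 + u 7) * eq4 ε (u 2 + u 5 + u 8)))

end

end Pool.Agent.H223.TM
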