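import Pool.Agent.H223.EM.FinalA
import Pool.Agent.H223.TM.Defs
import Pool.Agent.H59R2.TM_I1
import Pool.Agent.H59R2.TM_I3
import Pool.Agent.H59R2.TM_I4
import Pool.Agent.H59R2.TM_S3
import Pool.Agent.H59R2.TM_S4
import Pool.Agent.H497R2.TM_I2
import Pool.Agent.H497R2.TM_I5a
import Pool.Agent.H497R2.TM_I5b
import Pool.Agent.H491R2.TM_N1
import Pool.Agent.H491R2.TM_N2
import Pool.Agent.H491R2.TM_N3
import Pool.Agent.H656R2.TM_N3d
import Pool.Agent.H704R2.TM_S1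
import Pool.Agent.H704R2.TM_S2
import Pool.Agent.H704R2.TM_S5
import Pool.Agent.H223R2.TM_X1
import Pool.Agent.H223R2.TM_X2
import Pool.Agent.H223R2.TM_X3
import Pool.Agent.H223R2.TM_X4
import Pool.Agent.H223R2.TM_F

set_option autoImplicit false

/-!
Twelfth moment lower bound: the theorem.
-/

namespace Pool.Agent.H223.TM

open Finset Filter Topology MeasureTheory Complex
open Pool.Agent.H306R2 Pool.Agent.H223.EM

/-- lower bound for the twelfth moment of the zeta function -/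
theorem twelfth_moment : ∀ᶠ T : ℝ in atTop,
    1269000 * aF 6 / (Nat.factorial 36 : ℝ) * T * Real.log T ^ 36 ≤
      ∫ t in (0 : ℝ)..T, ‖riemannZeta (1 / 2 + t * Complex.I)‖ ^ 12 := by
  have hwA := Pool.Agent.H59R2.TMI1.wA_lim_of (fun {_} hr m lam H => MEP hr m lam H)
  have hwC := Pool.Agent.H497R2.TMI2.wC_lim_of (fun {_} hr m lam H => MEP hr m lam H)
  have hvA := Pool.Agent.H59R2.TMI3.vA_lim_of (fun {_} hr m lam H => MEP hr m lam H)
  have hvC := Pool.Agent.H59R2.TMI4.vC_lim_of (fun {_} hr m lam H => MEP hr m lam H)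
  have hwP := Pool.Agent.H497R2.TMI5.wP_lim_of (fun {_} hr m lam H => MEP hr m lam H)
  have hS1 := Pool.Agent.H704R2.TM.sum_cA_sq_of hwA
  have hS2 := Pool.Agent.H704R2.TM.sum_cB_sq_of hvA
  have hS3 := Pool.Agent.H59R2.TMS3.sum_crossA_of hwC
  have hS4 := Pool.Agent.H59R2.TMS4.sum_crossB_of hvA.1 hvC
  have hS5 := Pool.Agent.H704R2.TMS5.P_sixth_of hwP
  have hTW := Pool.Agent.H223R2.TMX1.TW6_of (fun ε h1 h2 => TW ε h1 h2)
  have hB2 := Pool.Agent.H223R2.TMX2.cross2_eval6_of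
    (fun ε hε hε1 => Pool.Agent.H697.EM.MB1.B2_part ε hε hε1) hS2
  have hB3 := Pool.Agent.H223R2.TMX3.B_norm6_of hS1 hS2
  exact Pool.Agent.H223R2.TMF.twelfth_moment_of Pool.Agent.H491R2.TMN1.JA_lim
    Pool.Agent.H491R2.TMN2.JB_lim
    (fun ε h1 h2 => Pool.Agent.H491R2.TMN3.JP_le_of Pool.Agent.H656R2.TM.Q2_val ε h1 h2)
    (Pool.Agent.H223R2.TMF.main_lower6_of hTW hS1 hS2 hS3 hS4 hS5 hB2 hB3
      (fun ε T hT k hk => Pool.Agent.H223R2.TMX4.holder12 ε T hT k hk))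

end Pool.Agent.H223.TM
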